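import Pool.Agent.H62.LP.T3

/-!
Row SEP of the board rwl_modules (`MP_521601_pr`): separated subsets.
-/

set_option autoImplicit false

namespace Pool.Agent.H13.LP

open Pool.Agent.H62.LP

theorem nm_le {x : V3} {K : ℕ} (h : nm x ≤ K) (i : Fin 3) : (x i).natAbs ≤ K :=
  (Finset.le_sup (f := fun i => (x i).natAbs) (Finset.mem_univ i)).trans h

theorem nm_sub_comm (x y : V3) : nm (x - y) = nm (y - x) := by
  unfold nm
  refine Finset.sup_congr rfl fun i _ => ?_
  rw [Pi.sub_apply, Pi.sub_apply]
  omega

theorem ball_card (K : ℕ) (z : V3) (Z : Finset V3) :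
    (Z.filter fun y => ¬ K < nm (y - z)).card ≤ (2 * K + 1) ^ 3 := by
  have h : (Z.filter fun y => ¬ K < nm (y - z)) ⊆
      Fintype.piFinset fun i : Fin 3 => Finset.Icc (z i - K) (z i + K) := by
    intro y hy
    rw [Fintype.mem_piFinset]
    intro i
    have h1 := nm_le (not_lt.1 (Finset.mem_filter.1 hy).2) i
    rw [Pi.sub_apply] at h1
    rw [Finset.mem_Icc]
    omega
  refine (Finset.card_le_card h).trans (le_of_eq ?_)
  rw [Fintype.card_piFinset]
  have h2 : ∀ i : Fin 3, (Finset.Icc (z i - K) (z i + K)).card = 2 * K + 1 := by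
    intro i
    rw [Int.card_Icc]
    omega
  simp only [h2, Finset.prod_const, Finset.card_univ, Fintype.card_fin]

theorem sep (K : ℕ) (n : ℕ) : ∀ Z : Finset V3, Z.card = n → ∃ Z' ⊆ Z,
    (∀ z ∈ Z', ∀ z' ∈ Z', z ≠ z' → K < nm (z - z')) ∧ Z.card ≤ Z'.card * (2 * K + 1) ^ 3 := by
  induction n using Nat.strong_induction_on with
  | _ n ih =>
    intro Z hZ
    rcases Finset.eq_empty_or_nonempty Z with h | ⟨z, hz⟩
    · exact ⟨∅, Finset.empty_subset _, by simp, by simp [h]⟩
    · have hz0 : nm (z - z) = 0 := by
        rw [sub_self]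
        unfold nm
        simp
      have hlt : (Z.filter fun y => K < nm (y - z)).card < n := by
        rw [← hZ]
        refine Finset.card_lt_card (Finset.filter_ssubset.2 ⟨z, hz, ?_⟩)
        rw [hz0]
        omega
      obtain ⟨Z', h1, h2, h3⟩ := ih _ hlt _ rfl
      have hmem : ∀ y ∈ Z', K < nm (y - z) := fun y hy => (Finset.mem_filter.1 (h1 hy)).2
      have hzn : z ∉ Z' := by
        intro h
        have := hmem z h
        omega
      refine ⟨insert z Z', ?_, ?_, ?_⟩
      · intro y hy
        rcases Finset.mem_insert.1 hy with rfl | hy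
        · exact hz
        · exact (Finset.mem_filter.1 (h1 hy)).1
      · intro a ha b hb hab
        rcases Finset.mem_insert.1 ha with ha | ha <;> rcases Finset.mem_insert.1 hb with hb | hb
        · exact absurd (ha.trans hb.symm) hab
        · rw [ha, nm_sub_comm]
          exact hmem b hb
        · rw [hb]
          exact hmem a ha
        · exact h2 a ha b hb hab
      · rw [Finset.card_insert_of_notMem hzn, add_mul, one_mul]
        have h4 := Finset.card_filter_add_card_filter_not (s := Z) (fun y => K < nm (y - z))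
        have h5 := ball_card K z Z
        omega

theorem pf_SEP : T_SEP := fun K Z => sep K Z.card Z rfl

end Pool.Agent.H13.LP
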